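import Pool.Agent.helper99.PLR.Spec

/-!
# Project plr, row CRA: the core
-/

set_option autoImplicit false
set_option linter.unusedVariables false

open scoped Classical

namespace Pool.Agent.PLR

open Finset
open Pool.Agent.helper65.HC (V IsEig IsTop lam)
open Pool.Agent.helper9.HQ (Fam Dn E N Le Eig lk)
open Pool.Agent.helper9.HX (Ef)
open Pool.Agent.helper9.HLR (cel Lc)

noncomputable section

theorem CRA_choose (d k : ℕ) (hk : 1 ≤ k) (hd : 1 ≤ d) :
    (((d - 1).choose (k - 1) : ℕ) : ℝ) = (k : ℝ) * (d.choose k : ℝ) / d := by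
  obtain ⟨d', rfl⟩ : ∃ d', d = d' + 1 := ⟨d - 1, by omega⟩
  obtain ⟨k', rfl⟩ : ∃ k', k = k' + 1 := ⟨k - 1, by omega⟩
  have h := Nat.add_one_mul_choose_eq d' k'
  have h' : ((d' : ℝ) + 1) * (d'.choose k' : ℝ) = ((d' + 1).choose (k' + 1) : ℝ) * ((k' : ℝ) + 1) := by
    exact_mod_cast h
  rw [Nat.add_sub_cancel, Nat.add_sub_cancel]
  have hpos : (0 : ℝ) < (d' : ℝ) + 1 := by positivity
  push_cast
  rw [eq_div_iff hpos.ne']
  linarith

theorem CRA (hUPA : UPA_stmt) (hPRK : PRK_stmt) (hDSB : Pool.Agent.helper9.HLR.DSB_stmt) : CRA_stmt := by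
  intro k K hk hK
  refine ⟨2 * (K + 2) ^ 2 * k + k + 1, ?_⟩
  intro d hd U hU hUc
  set kap : ℝ := 1 / (2 * ((K : ℝ) + 2)) with hkap
  have hK2 : (0 : ℝ) < 2 * ((K : ℝ) + 2) := by positivity
  obtain ⟨-, hD, hsub⟩ := hUPA d k U kap hU
  have hd1 : 1 ≤ d := by omega
  have hdk : k ≤ d := by omega
  have hb : (0 : ℝ) < (d.choose k : ℝ) := by exact_mod_cast Nat.choose_pos hdk
  have hdpos : (0 : ℝ) < (d : ℝ) := by exact_mod_cast hd1
  have hch := CRA_choose d k hk hd1
  have hUc' : (U.card : ℝ) < (K + 1) * (d.choose k : ℝ) := by exact_mod_cast hUc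
  have hdR : (2 * ((K : ℝ) + 2) ^ 2 * k + k + 1) ≤ d := by exact_mod_cast hd
  have hcard : (core k kap U).card ≤ K + 1 := by
    by_contra hcon
    push Not at hcon
    obtain ⟨C', hC', hD', hc'⟩ := hDSB d (core k kap U) (K + 2) hD (by omega)
    set S' : Finset (Fin d) := univ.filter fun i => {i} ∈ C' with hS'
    have hSc : S'.card ≤ K + 2 := by
      rw [← hc']
      refine Finset.card_le_card_of_injOn (fun i => ({i} : Finset (Fin d))) ?_ ?_
      · intro i hi
        rw [Finset.mem_coe, hS', Finset.mem_filter] at hi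
        exact hi.2
      · intro i _ j _ hij
        exact Finset.singleton_injective hij
    have hwS : ∀ w ∈ C', w ⊆ S' := by
      intro w hw i hi
      rw [hS', Finset.mem_filter]
      exact ⟨Finset.mem_univ i, hD' w hw _ (Finset.singleton_subset_iff.2 hi)⟩
    have h1 := hPRK d k U C' S' hk hd1 hwS
    rw [hc'] at h1
    have h2 : ((K : ℝ) + 2) * ((1 - kap) * (d.choose k : ℝ)) ≤ ∑ w ∈ C', (upk k w U : ℝ) := by
      have h3 : ∑ _w ∈ C', (1 - kap) * (d.choose k : ℝ) ≤ ∑ w ∈ C', (upk k w U : ℝ) := by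
        refine Finset.sum_le_sum fun w hw => ?_
        have := hC' hw
        unfold core at this
        exact (Finset.mem_filter.1 this).2
      rw [Finset.sum_const, hc', nsmul_eq_mul] at h3
      push_cast at h3
      exact h3
    have h3 : (∑ w ∈ C', (upk k w U : ℝ)) ≤ U.card + (K + 2) * (S'.card * (((d - 1).choose (k - 1) : ℕ) : ℝ)) := by
      exact_mod_cast h1
    rw [hch] at h3
    have hS'R : (S'.card : ℝ) ≤ (K : ℝ) + 2 := by exact_mod_cast hSc
    have h4 : ((K : ℝ) + 2) * ((S'.card : ℝ) * ((k : ℝ) * (d.choose k : ℝ) / d)) ≤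
        ((K : ℝ) + 2) * (((K : ℝ) + 2) * ((k : ℝ) * (d.choose k : ℝ) / d)) := by
      have h0 : (0 : ℝ) ≤ (k : ℝ) * (d.choose k : ℝ) / d := by positivity
      exact mul_le_mul_of_nonneg_left (mul_le_mul_of_nonneg_right hS'R h0) (by positivity)
    have h5 : ((K : ℝ) + 2) * ((1 - kap) * (d.choose k : ℝ)) = ((K : ℝ) + 3 / 2) * (d.choose k : ℝ) := by
      rw [hkap]
      field_simp
      ring
    have h6 : ((K : ℝ) + 2) * (((K : ℝ) + 2) * ((k : ℝ) * (d.choose k : ℝ) / d)) ≤ (d.choose k : ℝ) / 2 := by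
      have e : ((K : ℝ) + 2) * (((K : ℝ) + 2) * ((k : ℝ) * (d.choose k : ℝ) / d)) =
          (((K : ℝ) + 2) ^ 2 * k * (d.choose k : ℝ)) / d := by ring
      rw [e, div_le_iff₀ hdpos]
      have h7 : 2 * (((K : ℝ) + 2) ^ 2 * k) ≤ d := by
        have : (0 : ℝ) ≤ (k : ℝ) := by positivity
        linarith
      nlinarith [mul_le_mul_of_nonneg_right h7 hb.le]
    nlinarith
  have hScK : (Sc k kap U).card ≤ K := by
    rcases Finset.eq_empty_or_nonempty (core k kap U) with he | hne
    · have : Sc k kap U = ∅ := by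
        unfold Sc
        rw [Finset.filter_eq_empty_iff]
        intro i _ hi
        rw [he] at hi
        exact Finset.notMem_empty _ hi
      rw [this, Finset.card_empty]
      exact Nat.zero_le _
    · obtain ⟨w, hw⟩ := hne
      have h0 : (∅ : Finset (Fin d)) ∈ core k kap U := hD w hw ∅ (Finset.empty_subset w)
      have h1 : (Sc k kap U).card ≤ ((core k kap U).erase ∅).card := by
        refine Finset.card_le_card_of_injOn (fun i => ({i} : Finset (Fin d))) ?_ ?_
        · intro i hi
          rw [Finset.mem_coe] at hi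
          unfold Sc at hi
          rw [Finset.mem_filter] at hi
          exact Finset.mem_coe.2 (Finset.mem_erase.2 ⟨Finset.singleton_ne_empty i, hi.2⟩)
        · intro i _ j _ hij
          exact Finset.singleton_injective hij
      rw [Finset.card_erase_of_mem h0] at h1
      omega
  refine ⟨hScK, ?_⟩
  rcases Nat.lt_or_ge (core k kap U).card (K + 1) with h | h
  · exact ⟨core k kap U, Finset.Subset.refl _, by omega, fun w hw hw' => absurd hw hw'⟩
  · have hc : (core k kap U).card = K + 1 := le_antisymm hcard h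
    have hne : (core k kap U).Nonempty := by
      rw [← Finset.card_pos, hc]
      omega
    obtain ⟨w₀, hw₀, hmin⟩ := Finset.exists_min_image (core k kap U) (fun w => upk k w U) hne
    refine ⟨(core k kap U).erase w₀, Finset.erase_subset _ _, ?_, ?_⟩
    · rw [Finset.card_erase_of_mem hw₀, hc]
      exact le_refl _
    · intro w hw hw'
      have hww : w = w₀ := by
        by_contra h2
        exact hw' (Finset.mem_erase.2 ⟨h2, hw⟩)
      rw [hww]
      have h1 := hPRK d k U (core k kap U) (Sc k kap U) hk hd1 hsub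
      rw [hc] at h1
      have h2 : (core k kap U).card * upk k w₀ U ≤ ∑ w ∈ core k kap U, upk k w U := by
        rw [← smul_eq_mul]
        exact Finset.card_nsmul_le_sum _ _ _ hmin
      rw [hc] at h2
      have h3 : ((K : ℝ) + 1) * (upk k w₀ U : ℝ) ≤
          U.card + ((K : ℝ) + 1) * ((Sc k kap U).card * (((d - 1).choose (k - 1) : ℕ) : ℝ)) := by
        exact_mod_cast h2.trans h1
      rw [hch] at h3
      have hSR : ((Sc k kap U).card : ℝ) ≤ (K : ℝ) := by exact_mod_cast hScK
      have h0 : (0 : ℝ) ≤ (k : ℝ) * (d.choose k : ℝ) / d := by positivity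
      have h4 : ((K : ℝ) + 1) * (((Sc k kap U).card : ℝ) * ((k : ℝ) * (d.choose k : ℝ) / d)) ≤
          ((K : ℝ) + 1) * ((K : ℝ) * ((k : ℝ) * (d.choose k : ℝ) / d)) :=
        mul_le_mul_of_nonneg_left (mul_le_mul_of_nonneg_right hSR h0) (by positivity)
      have e : ((K : ℝ) + 1) * ((K : ℝ) * ((k : ℝ) * (d.choose k : ℝ) / d)) =
          ((K : ℝ) + 1) * K * k * (d.choose k : ℝ) / d := by ring
      rw [e] at h4
      linarith

end

end Pool.Agent.PLR
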